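import Mathlib
import Pool.Agent.V1187.TT5

/-!
Every nonempty compact perfect subset of the line is homeomorphic to the set of all sums
`x₁ + x₂ + …`, `x_j ∈ K_j`, for some admissible sequence of compact sets `K_j`.
-/

set_option autoImplicit false

open Set Filter Topology

namespace Pool.Agent.Results.MP_8027ba_an.AllPerfectSets

/-- The hypotheses on the sequence: every `K i` is compact, contains `0`, consists of nonnegative
numbers and has positive diameter; the diameters tend to `0`, and they are summable, so that every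
series `∑ x_j` with `x_j ∈ K j` converges. -/
def Admissible (K : ℕ → Set ℝ) : Prop :=
  (∀ i, IsCompact (K i) ∧ (0 : ℝ) ∈ K i ∧ K i ⊆ Ici 0 ∧ 0 < Metric.diam (K i)) ∧
    Tendsto (fun i => Metric.diam (K i)) atTop (𝓝 0) ∧ Summable (fun i => Metric.diam (K i))

/-- The set of all sums `∑ x_j` with `x_j ∈ K j` for all `j`. -/
def sumSet (K : ℕ → Set ℝ) : Set ℝ :=
  {s : ℝ | ∃ y : ℕ → ℝ, (∀ j, y j ∈ K j) ∧ s = ∑' j, y j}

/-- Every nonempty compact perfect `X ⊆ ℝ` is homeomorphic to the sum set of an admissible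
sequence; all terms of the sequence except the first can be two-point sets `{0, a}`. -/
theorem result (X : Set ℝ) (hX : IsCompact X) (hne : X.Nonempty) (hperf : Perfect X) :
    ∃ K : ℕ → Set ℝ, Admissible K ∧ (∀ i, ∃ a, 0 < a ∧ K (i + 1) = {0, a}) ∧
      Nonempty (X ≃ₜ sumSet K) := by
  have hp : ∀ z ∈ X, ∀ ε > 0, ∃ y ∈ X, y ≠ z ∧ |y - z| < ε := by
    intro z hz ε hε
    obtain ⟨y, ⟨hy1, hy2⟩, hy3⟩ := accPt_iff_nhds.1 (hperf.acc z hz) _ (Metric.ball_mem_nhds z hε)
    rw [Metric.mem_ball, Real.dist_eq] at hy1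
    exact ⟨y, hy2, hy3, hy1⟩
  obtain ⟨K, h1, h2, h3, h4, h5⟩ := Pool.Agent.V1187.TT.all_types X hX hne hp
  exact ⟨K, ⟨h1, h2, h3⟩, h4, h5⟩

end Pool.Agent.Results.MP_8027ba_an.AllPerfectSets
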